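import Pool.Agent.Q293.HF.Stm

/-!
# Project HF, job FB: a map all of whose fibres are homology equivalent to the total space (helper230)
-/

set_option autoImplicit false

open Topology Filter

namespace Pool.Agent.Q230.HF.FB

open Pool.Agent.Q293.HF Pool.Agent.Helper922.HB

/-- job FB -/
theorem fb : S_FB := by
  intro X Y _ _ f h
  refine ⟨{Set.univ}, ?_, fun y => ⟨Set.univ, rfl, Set.mem_univ y⟩, ?_⟩
  · rintro U rfl
    exact isOpen_univ
  · rintro U rfl y hy
    rw [← HE_iff_bijective]
    have hg : HE (sub (f ⁻¹' (Set.univ : Set Y))) :=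
      HE_of_homeo (Homeomorph.Set.univ X) (sub (f ⁻¹' (Set.univ : Set Y))) fun _ => rfl
    refine HE.of_comp_left hg ?_
    exact h y

end Pool.Agent.Q230.HF.FB
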